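import Pool.Agent.T63.Klamkin

set_option autoImplicit false

/-!
# Klamkin's problem: perimeter-bisecting points of convex curves

If every line through the point `O` bisects the perimeter of the convex closed curve `C`, then `C`
is centrally symmetric with respect to `O`.

Idea of the proof.  `O` is an interior point of the convex body `K` bounded by `C`.  Put `O = 0`.
Comparing the bisecting lines in two directions one sees that opposite sectors with apex `O` cut
off arcs of `C` of equal length.  If `K ≠ -K`, there is a sector `S` of angle at most `π` in whose
interior the boundary of `K` lies strictly outside the boundary of `-K` and on whose sides the two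
boundaries meet.  Then `(-K) ∩ S` is a convex body which is properly contained in the convex body
`K ∩ S`, so it has strictly smaller perimeter, although the two arcs have the same length: a
contradiction.
-/

namespace Pool.Agent.Results.MP_7f2f72_gt.PerimeterBisectors

open MeasureTheory
open scoped RealInnerProductSpace

/-- A convex closed curve in the Euclidean plane: the boundary of a compact convex set with
nonempty interior. -/
def IsConvexClosedCurve (C : Set (EuclideanSpace ℝ (Fin 2))) : Prop :=
  ∃ K : Set (EuclideanSpace ℝ (Fin 2)),
    IsCompact K ∧ Convex ℝ K ∧ (interior K).Nonempty ∧ C = frontier K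

/-- For `u ≠ 0`, the line `{x | ⟪u, x - O⟫ = 0}` through `O` with normal vector `u` bisects the
perimeter of `C`: the parts of `C` in the two open half-planes bounded by this line have the same
length.  (Length is one-dimensional Hausdorff measure, which on arcs is arc length.) -/
def BisectsPerimeter (C : Set (EuclideanSpace ℝ (Fin 2))) (O u : EuclideanSpace ℝ (Fin 2)) :
    Prop :=
  μH[1] (C ∩ {x | 0 < ⟪u, x - O⟫}) = μH[1] (C ∩ {x | ⟪u, x - O⟫ < 0})

/-- **Klamkin's problem, positive answer.**  If every line through `O` bisects the perimeter of the
convex closed curve `C`, then the reflection in the point `O` maps `C` onto itself. -/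
theorem result (C : Set (EuclideanSpace ℝ (Fin 2))) (hC : IsConvexClosedCurve C)
    (O : EuclideanSpace ℝ (Fin 2))
    (h : ∀ u : EuclideanSpace ℝ (Fin 2), u ≠ 0 → BisectsPerimeter C O u) :
    (fun x => (2 : ℝ) • O - x) '' C = C := by
  obtain ⟨K, hK, hKc, hKi, rfl⟩ := hC
  exact Pool.Agent.T63.Klamkin.klamkin hK hKc hKi O h

end Pool.Agent.Results.MP_7f2f72_gt.PerimeterBisectors
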